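import Mathlib

namespace Pool.Agent.Results.MP_841d01_co.ManyP

/-- `tau n`: the largest triangular number `k(k+1)/2` (`k ≥ 1`) that is at most `n`. -/
noncomputable def tau (n : ℕ) : ℕ := sSup {t : ℕ | t ≤ n ∧ ∃ k : ℕ, 1 ≤ k ∧ t = k * (k + 1) / 2}

/-- Outcome classes of Tribulations: `Out false n` says `n` is a P-position,
`Out true n` says `n` is an N-position. -/
inductive Out : Bool → ℕ → Prop
  | zero : Out false 0
  | winSub (n : ℕ) : 1 ≤ n → Out false (n - tau n) → Out true n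
  | winAdd (n : ℕ) : 1 ≤ n → Out false (n + tau n) → Out true n
  | lose (n : ℕ) : 1 ≤ n → Out true (n - tau n) → Out true (n + tau n) → Out false n

/-- `Pc x`: the number of P-positions in `{1, …, x}`. -/
noncomputable def Pc (x : ℕ) : ℕ := Set.ncard {n : ℕ | 1 ≤ n ∧ n ≤ x ∧ Out false n}

lemma two_T (k : ℕ) : 2 * (k * (k + 1) / 2) = k * (k + 1) :=
  Nat.mul_div_cancel' (Nat.even_mul_succ_self k).two_dvd

lemma tau_eq (k r : ℕ) (hk : 1 ≤ k) (hr : r ≤ k) :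
    tau (k * (k + 1) / 2 + r) = k * (k + 1) / 2 := by
  apply IsGreatest.csSup_eq
  refine ⟨⟨Nat.le_add_right _ _, k, hk, rfl⟩, ?_⟩
  rintro t ⟨ht, l, -, rfl⟩
  have h1 := two_T k
  have h2 := two_T l
  have hl : l ≤ k := by
    by_contra h
    have h' : k + 1 ≤ l := by omega
    have : (k + 1) * (k + 1 + 1) ≤ l * (l + 1) := Nat.mul_le_mul h' (by omega)
    nlinarith
  have : l * (l + 1) ≤ k * (k + 1) := Nat.mul_le_mul hl (by omega)
  omega

lemma pell (j t : ℕ) : ∃ m k : ℕ, m * (m + 1) = 2 * (k * (k + 1)) + j * (j + 1) ∧ t ≤ k ∧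
    k ≤ 7 * t + 2 * j + 2 := by
  induction t with
  | zero => exact ⟨j, 0, by simp, le_rfl, by omega⟩
  | succ t ih =>
    obtain ⟨m, k, h, h1, h2⟩ := ih
    by_cases hk : t + 1 ≤ k
    · exact ⟨m, k, h, hk, by omega⟩
    · have hm : m ≤ 2 * k + j := by
        by_contra hc
        have h' : 2 * k + j + 1 ≤ m := by omega
        have : (2 * k + j + 1) * (2 * k + j + 1 + 1) ≤ m * (m + 1) :=
          Nat.mul_le_mul h' (by omega)
        nlinarith
      refine ⟨3 * m + 4 * k + 3, 2 * m + 3 * k + 2, by nlinarith, by omega, by omega⟩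

lemma isN (j p : ℕ) (hj : 1 ≤ j) (hp : p ≤ j) (h : Out false p) :
    Out true (j * (j + 1) / 2 + p) := by
  have h1 := two_T j
  refine Out.winSub _ (by nlinarith) ?_
  rw [tau_eq j p hj hp]
  simpa using h

lemma step (j p : ℕ) (hj : 1 ≤ j) (hp : p ≤ j) (h : Out false p) :
    ∃ n : ℕ, 1 ≤ n ∧ n ≤ 648 * j ^ 4 ∧ Out false n ∧ n - tau n = j * (j + 1) / 2 + p := by
  obtain ⟨m, k, h0, h1, h2⟩ := pell j (j * (j + 1) / 2 + p)
  have e1 := two_T j
  have e2 := two_T k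
  have e3 := two_T m
  have hr1 : 1 ≤ j * (j + 1) / 2 + p := by nlinarith
  have hk : 1 ≤ k := le_trans hr1 h1
  have ht := tau_eq k (j * (j + 1) / 2 + p) hk h1
  have hjm : j ≤ m := by
    by_contra hc
    have h' : m + 1 ≤ j := by omega
    have : (m + 1) * (m + 1 + 1) ≤ j * (j + 1) := Nat.mul_le_mul h' (by omega)
    nlinarith
  have hsub : k * (k + 1) / 2 + (j * (j + 1) / 2 + p) -
      tau (k * (k + 1) / 2 + (j * (j + 1) / 2 + p)) = j * (j + 1) / 2 + p := by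
    rw [ht]; omega
  refine ⟨k * (k + 1) / 2 + (j * (j + 1) / 2 + p), by omega, ?_, ?_, hsub⟩
  · have hk2 : k ≤ 18 * j ^ 2 := by nlinarith
    have hn : k * (k + 1) / 2 + (j * (j + 1) / 2 + p) ≤ 2 * k ^ 2 := by nlinarith
    have : k ^ 2 ≤ (18 * j ^ 2) ^ 2 := Nat.pow_le_pow_left hk2 2
    nlinarith
  · refine Out.lose _ (by omega) ?_ ?_
    · rw [hsub]; exact isN j p hj hp h
    · rw [ht]
      have : k * (k + 1) / 2 + (j * (j + 1) / 2 + p) + k * (k + 1) / 2 =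
          m * (m + 1) / 2 + p := by omega
      rw [this]
      exact isN m p (le_trans hj hjm) (le_trans hp hjm) h

lemma main (i : ℕ) : ∃ a C : ℕ, 3 * a + 1 = 4 ^ i ∧ ∀ y : ℕ, 1 ≤ y → ∃ s : Finset ℕ,
    y ^ a ≤ s.card ∧ ∀ n ∈ s, 1 ≤ n ∧ n ≤ C * y ^ (4 ^ i) ∧ Out false n := by
  induction i with
  | zero =>
    obtain ⟨n, h1, -, h3, -⟩ := step 1 0 le_rfl (by omega) Out.zero
    refine ⟨0, n, by simp, fun y hy => ⟨{n}, by simp, ?_⟩⟩
    intro x hx
    rw [Finset.mem_singleton] at hx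
    subst hx
    refine ⟨h1, ?_, h3⟩
    simpa using Nat.le_mul_of_pos_right x hy
  | succ i ih =>
    obtain ⟨a, C, ha, H⟩ := ih
    refine ⟨a + 4 ^ i, 648 * (C + 1) ^ 4, by rw [pow_succ]; omega, fun y hy => ?_⟩
    obtain ⟨s, hs, hs'⟩ := H y hy
    set w := y ^ (4 ^ i) with hw
    have key : ∀ q : ℕ × ℕ, ∃ n : ℕ, q ∈ s ×ˢ Finset.Ioc (C * w) (C * w + w) →
        1 ≤ n ∧ n ≤ 648 * q.2 ^ 4 ∧ Out false n ∧ n - tau n = q.2 * (q.2 + 1) / 2 + q.1 := by
      intro q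
      by_cases hq : q ∈ s ×ˢ Finset.Ioc (C * w) (C * w + w)
      · have hq' := hq
        rw [Finset.mem_product, Finset.mem_Ioc] at hq'
        obtain ⟨h1, h2, h3⟩ := hs' q.1 hq'.1
        obtain ⟨n, hn⟩ := step q.2 q.1 (by omega) (by omega) h3
        exact ⟨n, fun _ => hn⟩
      · exact ⟨0, fun h => absurd h hq⟩
    choose f hf using key
    refine ⟨(s ×ˢ Finset.Ioc (C * w) (C * w + w)).image f, ?_, ?_⟩
    · rw [Finset.card_image_of_injOn]
      · rw [Finset.card_product, Nat.card_Ioc, pow_add]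
        have : C * w + w - C * w = w := by omega
        rw [this]
        exact Nat.mul_le_mul_right _ hs
      · intro q hq q' hq' hqq
        have hq1 := Finset.mem_coe.1 hq
        have hq2 := Finset.mem_coe.1 hq'
        obtain ⟨-, -, -, e⟩ := hf q hq1
        obtain ⟨-, -, -, e'⟩ := hf q' hq2
        rw [Finset.mem_product, Finset.mem_Ioc] at hq1 hq2
        obtain ⟨-, b1, -⟩ := hs' q.1 hq1.1
        obtain ⟨-, b2, -⟩ := hs' q'.1 hq2.1
        have er : q.2 * (q.2 + 1) / 2 + q.1 = q'.2 * (q'.2 + 1) / 2 + q'.1 := by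
          rw [← e, ← e', hqq]
        have t1 := tau_eq q.2 q.1 (by omega) (by omega)
        have t2 := tau_eq q'.2 q'.1 (by omega) (by omega)
        rw [er, t2] at t1
        have u1 := two_T q.2
        have u2 := two_T q'.2
        have e2 : q.2 = q'.2 := by
          have : q.2 * (q.2 + 1) = q'.2 * (q'.2 + 1) := by omega
          nlinarith
        exact Prod.ext (by omega) e2
    · intro n hn
      obtain ⟨q, hq, rfl⟩ := Finset.mem_image.1 hn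
      obtain ⟨h1, h2, h3, -⟩ := hf q hq
      refine ⟨h1, ?_, h3⟩
      rw [Finset.mem_product, Finset.mem_Ioc] at hq
      have hle : q.2 ≤ (C + 1) * w := by nlinarith [hq.2.2]
      have := Nat.pow_le_pow_left hle 4
      rw [pow_succ 4 i, pow_mul, ← hw]
      calc f q ≤ 648 * q.2 ^ 4 := h2
        _ ≤ 648 * ((C + 1) * w) ^ 4 := Nat.mul_le_mul_left _ this
        _ = 648 * (C + 1) ^ 4 * w ^ 4 := by ring

lemma disc : ∀ i : ℕ, ∃ C : ℕ, ∀ y : ℕ, 1 ≤ y →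
    y ^ ((4 ^ i - 1) / 3) ≤ Pc (C * y ^ (4 ^ i)) := by
  intro i
  obtain ⟨a, C, ha, H⟩ := main i
  refine ⟨C, fun y hy => ?_⟩
  obtain ⟨s, hs, hs'⟩ := H y hy
  have : (4 ^ i - 1) / 3 = a := by omega
  rw [this]
  refine le_trans hs ?_
  rw [← Set.ncard_coe_finset]
  apply Set.ncard_le_ncard
  · intro n hn
    exact hs' n (Finset.mem_coe.1 hn)
  · exact (Set.finite_le_nat (C * y ^ (4 ^ i))).subset (fun n hn => hn.2.1)

lemma Pc_mono {x y : ℕ} (h : x ≤ y) : Pc x ≤ Pc y := by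
  apply Set.ncard_le_ncard
  · intro n hn
    exact ⟨hn.1, le_trans hn.2.1 h, hn.2.2⟩
  · exact (Set.finite_le_nat y).subset (fun n hn => hn.2.1)

lemma disc2 (i : ℕ) : ∃ a K : ℕ, 3 * a + 1 = 4 ^ i ∧ 1 ≤ K ∧ ∀ x : ℕ, K ≤ x →
    x ^ a ≤ K * Pc x ^ (4 ^ i) := by
  obtain ⟨C, H⟩ := disc i
  have h4 : 4 ^ i % 3 = 1 := by
    rw [Nat.pow_mod]; simp
  have hb : 1 ≤ 4 ^ i := Nat.one_le_pow _ _ (by norm_num)
  set b := 4 ^ i with hbdef
  set a := (b - 1) / 3 with ha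
  refine ⟨a, ((C + 1) * 2 ^ b) ^ a + (C + 1), by omega, by omega, fun x hx => ?_⟩
  have hex : ∃ z : ℕ, x < (C + 1) * (z + 1) ^ b := by
    refine ⟨x, ?_⟩
    have : x + 1 ≤ (x + 1) ^ b := Nat.le_self_pow (by omega) _
    nlinarith
  classical
  have h1 := Nat.find_spec hex
  set y := Nat.find hex with hy
  have hy1 : 1 ≤ y := by
    by_contra hc
    have h0 : y = 0 := by omega
    rw [h0] at h1
    simp at h1
    omega
  have h2 : ¬ x < (C + 1) * (y - 1 + 1) ^ b := Nat.find_min hex (by omega)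
  rw [Nat.sub_add_cancel hy1] at h2
  have h3 : C * y ^ b ≤ x := by
    have : C * y ^ b ≤ (C + 1) * y ^ b := Nat.mul_le_mul_right _ (by omega)
    omega
  have h5 : y ^ a ≤ Pc x := le_trans (H y hy1) (Pc_mono h3)
  have h6 : x ≤ (C + 1) * 2 ^ b * y ^ b := by
    have : (y + 1) ^ b ≤ (2 * y) ^ b := Nat.pow_le_pow_left (by omega) _
    rw [mul_pow] at this
    have h7 := Nat.mul_le_mul_left (C + 1) this
    rw [mul_assoc]
    omega
  calc x ^ a ≤ ((C + 1) * 2 ^ b * y ^ b) ^ a := Nat.pow_le_pow_left h6 _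
    _ = ((C + 1) * 2 ^ b) ^ a * (y ^ a) ^ b := by
      rw [mul_pow, ← pow_mul y b a, ← pow_mul y a b, mul_comm a b]
    _ ≤ (((C + 1) * 2 ^ b) ^ a + (C + 1)) * Pc x ^ b :=
      Nat.mul_le_mul (by omega) (Nat.pow_le_pow_left h5 _)

theorem result : ∀ ε : ℝ, 0 < ε → ∃ x₀ : ℕ, ∀ x : ℕ, x₀ ≤ x →
    (x : ℝ) ^ ((1 : ℝ) / 3 - ε) ≤ (Pc x : ℝ) := by
  intro ε hε
  obtain ⟨i, hi⟩ : ∃ i : ℕ, (4 / 3 / ε : ℝ) < 4 ^ i :=
    pow_unbounded_of_one_lt _ (by norm_num)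
  obtain ⟨a, K, ha, hK, H⟩ := disc2 i
  refine ⟨K, fun x hx => ?_⟩
  have hb : 4 ^ i ≠ 0 := by positivity
  have hx1 : (1 : ℝ) ≤ x := by exact_mod_cast le_trans hK hx
  have hx0 : (0 : ℝ) < x := by linarith
  have hK0 : (0 : ℝ) < K := by exact_mod_cast hK
  have hKx : (K : ℝ) ≤ x := by exact_mod_cast hx
  have h1 : (x : ℝ) ^ a ≤ K * (Pc x : ℝ) ^ (4 ^ i) := by exact_mod_cast H x hx
  have ha' : (3 : ℝ) * a + 1 = 4 ^ i := by exact_mod_cast ha
  have hi' : (4 / 3 : ℝ) < 4 ^ i * ε := by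
    rwa [div_lt_iff₀ hε] at hi
  refine le_of_pow_le_pow_left₀ hb (by positivity) ?_
  rw [← Real.rpow_natCast, ← Real.rpow_mul hx0.le]
  have h2 : (x : ℝ) ^ (((1 : ℝ) / 3 - ε) * ((4 ^ i : ℕ) : ℝ)) * x ≤ (x : ℝ) ^ a := by
    rw [← Real.rpow_add_one hx0.ne', ← Real.rpow_natCast (x : ℝ) a]
    apply Real.rpow_le_rpow_of_exponent_le hx1
    push_cast
    nlinarith
  have h3 : 0 ≤ (x : ℝ) ^ (((1 : ℝ) / 3 - ε) * ((4 ^ i : ℕ) : ℝ)) := by positivity
  have h4 : (x : ℝ) ^ (((1 : ℝ) / 3 - ε) * ((4 ^ i : ℕ) : ℝ)) * K ≤ (Pc x : ℝ) ^ (4 ^ i) * K := by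
    have := mul_le_mul_of_nonneg_left hKx h3
    linarith
  exact le_of_mul_le_mul_right h4 hK0

end Pool.Agent.Results.MP_841d01_co.ManyP
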