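import Mathlib
import Pool.Agent.Results.MP_841d01_co.ManyP

open Pool.Agent.Results.MP_841d01_co.ManyP

namespace Pool.Agent.Results.MP_841d01_co.ManyN

/-- `Nc x`: the number of N-positions in `{1, …, x}`. -/
noncomputable def Nc (x : ℕ) : ℕ := Set.ncard {n : ℕ | 1 ≤ n ∧ n ≤ x ∧ Out true n}

lemma count (y x : ℕ) (hx : 4 * (y * y) ≤ x) : Pc y * y ≤ Nc x := by
  have hfin : {n : ℕ | 1 ≤ n ∧ n ≤ y ∧ Out false n}.Finite :=
    (Set.finite_le_nat y).subset (fun n hn => hn.2.1)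
  have hc : (hfin.toFinset ×ˢ Finset.Ioc y (y + y)).card = Pc y * y := by
    rw [Finset.card_product, Nat.card_Ioc, Nat.add_sub_cancel_left, Pc,
      Set.ncard_eq_toFinset_card _ hfin]
  have hinj : Set.InjOn (fun q : ℕ × ℕ => q.2 * (q.2 + 1) / 2 + q.1)
      (hfin.toFinset ×ˢ Finset.Ioc y (y + y) : Finset (ℕ × ℕ)) := by
    intro q hq q' hq' er
    have hq1 := Finset.mem_coe.1 hq
    have hq2 := Finset.mem_coe.1 hq'
    rw [Finset.mem_product, Finset.mem_Ioc, Set.Finite.mem_toFinset] at hq1 hq2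
    obtain ⟨⟨-, b1, -⟩, c1⟩ := hq1
    obtain ⟨⟨-, b2, -⟩, c2⟩ := hq2
    simp only at er
    have t1 := tau_eq q.2 q.1 (by omega) (by omega)
    have t2 := tau_eq q'.2 q'.1 (by omega) (by omega)
    rw [er, t2] at t1
    have u1 := two_T q.2
    have u2 := two_T q'.2
    have e2 : q.2 = q'.2 := by
      have : q.2 * (q.2 + 1) = q'.2 * (q'.2 + 1) := by omega
      nlinarith
    exact Prod.ext (by omega) e2
  rw [← hc, ← Finset.card_image_of_injOn hinj, ← Set.ncard_coe_finset]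
  apply Set.ncard_le_ncard
  · intro n hn
    obtain ⟨q, hq, rfl⟩ := Finset.mem_image.1 (Finset.mem_coe.1 hn)
    rw [Finset.mem_product, Finset.mem_Ioc, Set.Finite.mem_toFinset] at hq
    obtain ⟨⟨a1, a2, a3⟩, c1, c2⟩ := hq
    have u1 := two_T q.2
    refine ⟨by omega, ?_, isN q.2 q.1 (by omega) (by omega) a3⟩
    have : q.2 * (q.2 + 1) ≤ (y + y) * (y + y + 1) := Nat.mul_le_mul c2 (by omega)
    have : y ≤ y * y := Nat.le_mul_self y
    nlinarith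
  · exact (Set.finite_le_nat x).subset (fun n hn => hn.2.1)

theorem result : ∀ ε : ℝ, 0 < ε → ∃ x₀ : ℕ, ∀ x : ℕ, x₀ ≤ x →
    (x : ℝ) ^ ((2 : ℝ) / 3 - ε) ≤ (Nc x : ℝ) := by
  intro ε hε
  obtain ⟨y₀, H⟩ := Pool.Agent.Results.MP_841d01_co.ManyP.result ε hε
  have ht := ((tendsto_rpow_atTop hε).comp tendsto_natCast_atTop_atTop).eventually_ge_atTop 16
  obtain ⟨y₁, H1⟩ := Filter.eventually_atTop.1 ht
  refine ⟨4 * ((y₀ + y₁ + 1) * (y₀ + y₁ + 1)), fun x hx => ?_⟩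
  obtain ⟨y, hy⟩ : ∃ y, y = Nat.sqrt (x / 4) := ⟨_, rfl⟩
  have e1 : y * y ≤ x / 4 := hy ▸ Nat.sqrt_le (x / 4)
  have e2 : x / 4 < (y + 1) * (y + 1) := hy ▸ Nat.lt_succ_sqrt (x / 4)
  have e3 : y₀ + y₁ + 1 ≤ y := by
    rw [hy, Nat.le_sqrt]; omega
  have e4 : x ≤ 16 * (y * y) := by
    have : (y + 1) * (y + 1) ≤ (2 * y) * (2 * y) := Nat.mul_le_mul (by omega) (by omega)
    have : x < 4 * (x / 4 + 1) := by omega
    nlinarith
  have c1 : (Pc y : ℝ) * y ≤ Nc x := by exact_mod_cast count y x (by omega)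
  have c2 := H y (by omega)
  have c3 : (16 : ℝ) ≤ (y : ℝ) ^ ε := H1 y (by omega)
  have hy1 : (1 : ℝ) ≤ y := by exact_mod_cast (show 1 ≤ y by omega)
  have hy0 : (0 : ℝ) < y := by linarith
  have hx1 : (1 : ℝ) ≤ x := by
    have : 1 ≤ x := by nlinarith
    exact_mod_cast this
  have c4 : (y : ℝ) ^ ((1 : ℝ) / 3 - ε) * y ≤ Nc x :=
    le_trans (mul_le_mul_of_nonneg_right c2 hy0.le) c1
  have hyx : (y : ℝ) * y ≤ x := by exact_mod_cast (show y * y ≤ x by omega)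
  have e4' : (x : ℝ) ≤ 16 * ((y : ℝ) * y) := by exact_mod_cast e4
  refine le_trans ?_ c4
  have d1 : (x : ℝ) ^ ((2 : ℝ) / 3) ≤ 16 * (y : ℝ) ^ ((4 : ℝ) / 3) := by
    calc (x : ℝ) ^ ((2 : ℝ) / 3) ≤ (16 * ((y : ℝ) * y)) ^ ((2 : ℝ) / 3) :=
          Real.rpow_le_rpow (by positivity) e4' (by norm_num)
      _ = 16 ^ ((2 : ℝ) / 3) * (y : ℝ) ^ ((4 : ℝ) / 3) := by
          rw [Real.mul_rpow (by norm_num) (by positivity), Real.mul_rpow hy0.le hy0.le,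
            ← Real.rpow_add hy0]
          norm_num
      _ ≤ 16 * (y : ℝ) ^ ((4 : ℝ) / 3) := by
          apply mul_le_mul_of_nonneg_right _ (by positivity)
          calc (16 : ℝ) ^ ((2 : ℝ) / 3) ≤ 16 ^ (1 : ℝ) :=
                Real.rpow_le_rpow_of_exponent_le (by norm_num) (by norm_num)
            _ = 16 := Real.rpow_one _
  have d2 : (y : ℝ) ^ ε * (y : ℝ) ^ ε ≤ (x : ℝ) ^ ε := by
    rw [← Real.mul_rpow hy0.le hy0.le]
    exact Real.rpow_le_rpow (by positivity) hyx hε.le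
  have d3 : (y : ℝ) ^ ((1 : ℝ) / 3 - ε) * y = (y : ℝ) ^ ((4 : ℝ) / 3) / (y : ℝ) ^ ε := by
    rw [← Real.rpow_add_one hy0.ne', ← Real.rpow_sub hy0]
    congr 1
    ring
  have p1 : (0 : ℝ) < (y : ℝ) ^ ε := by positivity
  have p2 : (0 : ℝ) < (x : ℝ) ^ ε := by positivity
  have p3 : (0 : ℝ) < (y : ℝ) ^ ((4 : ℝ) / 3) := by positivity
  rw [d3, Real.rpow_sub (by linarith), div_le_div_iff₀ p2 p1]
  have d4 : 16 * (y : ℝ) ^ ε ≤ (x : ℝ) ^ ε := by nlinarith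
  nlinarith [mul_le_mul_of_nonneg_right d1 p1.le, mul_le_mul_of_nonneg_left d4 p3.le]

end Pool.Agent.Results.MP_841d01_co.ManyN
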